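import Pool.Agent.H92.Q6

open MeasureTheory Pool.Agent.H92.Q

namespace Pool.Agent.Results.MP_21f5b8_an.Infinite

/-- For every N at least 2 and every q in (2, 2*) there is a bounded connected open set on which
infinitely many q-eigenvalues have a nonnegative eigenfunction. -/
theorem result : ∀ N : ℕ, 2 ≤ N → ∀ q : ℝ, 2 < q → ((N : ℝ) - 2) * q < 2 * N →
    ∃ Ω : Set (E N), IsOpen Ω ∧ Bornology.IsBounded Ω ∧ IsConnected Ω ∧
      Set.Infinite {lam : ℝ | ∃ p ∈ Sphere Ω q, Eigen Ω q lam p ∧ ∀ᵐ x, 0 ≤ p.1 x} := by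
  intro N hN q hq hqN
  obtain ⟨Ω, h1, h2, h3, h4⟩ := many hN hq hqN
  refine ⟨Ω, h1, h2, h3, fun h => h4 (h.bddAbove.mono ?_)⟩
  rintro lam ⟨p, a, b, c⟩
  exact ⟨ofP p, (sph_iff (r := ofP p) .rfl .rfl).mp a, (eigen_iff (r := ofP p) .rfl .rfl).mp b, c⟩

end Pool.Agent.Results.MP_21f5b8_an.Infinite
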